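import Pool.Agent.Helper27.T5b.Basic
import Pool.Agent.Helper30.T5b.NLb

/-!
# T5b: the elements of the state `l` lie in `[NL l, NL (l + 1))`
-/

set_option autoImplicit false

namespace Pool.Agent.Helper27.T5b

open Finset Pool.Agent.Helper27.T4
open Pool.Agent.Helper5.ET (bb era own cnt av Nj pr pr_prime pr_inj)
open Pool.Agent.Helper37.T5b Pool.Agent.Helper84.T5b Pool.Agent.Helper57.T5
open Pool.Agent.Helper22.HW Pool.Agent.Helper50.T5
open Pool.Agent.Helper27.T5 (gw)
open Pool.Agent.Helper30.T5b (pz QF QT RT PZ ez NL RT_succ RT_pos QT_pos QF_pos dz million_lt_pz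
  exists_late exists_NL_le exists_pow_le_QF exists_pow_le_RT NL_succ_ge eight_mul_dz)

variable {m k : ℕ}

theorem c0_lt (m k l : ℕ) (w : Key → ℕ) (x : JF → ℕ) : c0 m k l w x < FF m k l 0 :=
  cv_lt (pJ_prime k _) (pJ_inj k _) _ _

theorem QQ_eq_NN (m k s t : ℕ) : Pool.Agent.Helper84.T5b.QQ m k s t =
    NN (pz k (s - t)) (zf m k (s - t)) := rfl

/-- the codes of the static levels -/
theorem cs_lt (m k l t : ℕ) (w : Key → ℕ) (o : JF → ℕ) (y : Fin 3 → ℕ) :
    cs m k l t w o y <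
      FF m k l (t + 1) * LL (Pool.Agent.Helper84.T5b.QQ m k (sL m k l)) (t + 1) := by
  rw [LL_succ, QQ_eq_NN, ← mul_assoc]
  unfold cs Side.cd lc
  exact fc_lt _ _ _ (Nat.mul_pos (FF_pos _ _ _ _) (LLQ_pos _ _ _ _)) _ _

theorem dvd_cs (m k l t : ℕ) (w : Key → ℕ) (o : JF → ℕ) (y : Fin 3 → ℕ) :
    FF m k l (t + 1) * LL (Pool.Agent.Helper84.T5b.QQ m k (sL m k l)) t ∣ cs m k l t w o y :=
  dvd_mul_right _ _

/-- the ranges of the codes at least double -/
def Dbl (m k l : ℕ) : Prop := ∀ t < rL m k l,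
  2 * (FF m k l t * LL (Pool.Agent.Helper84.T5b.QQ m k (sL m k l)) t) ≤
    FF m k l (t + 1) * LL (Pool.Agent.Helper84.T5b.QQ m k (sL m k l)) (t + 1)

/-- the sum of all codes, arbitrary outer keys -/
theorem codes_lt {l : ℕ} (hd : Dbl m k l) (w : Key → ℕ) (x : JF → ℕ) (o : ℕ → JF → ℕ)
    (y : Fin (rL m k l) → Fin 3 → ℕ) :
    c0 m k l w x + ∑ t : Fin (rL m k l), cs m k l t w (o t) (y t) <
      2 * (FF m k l (rL m k l) *
        LL (Pool.Agent.Helper84.T5b.QQ m k (sL m k l)) (rL m k l)) := by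
  have h0 : c0 m k l w x < FF m k l 0 * LL (Pool.Agent.Helper84.T5b.QQ m k (sL m k l)) 0 := by
    rw [LL_zero, mul_one]
    exact c0_lt m k l w x
  exact tower_size
    (fun t => FF m k l t * LL (Pool.Agent.Helper84.T5b.QQ m k (sL m k l)) t) _ h0 _ hd
    (fun t => cs m k l t w (o t) (y t)) (fun t => cs_lt m k l t w _ _)

/-- **the scales**: elements of the state `l` -/
theorem AA_range_of (hm : 0 < m) {l : ℕ} (hl : bb 0 ≤ mL m k l) (hd : Dbl m k l)
    (h2 : 2 * (FF m k l (rL m k l) *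
        LL (Pool.Agent.Helper84.T5b.QQ m k (sL m k l)) (rL m k l)) ≤ NL m k l)
    (w : Key → ℕ) {a : ℕ} (ha : a ∈ AA m k l w) : NL m k l ≤ a ∧ a < 17 * NL m k l := by
  unfold AA at ha
  rw [mem_image] at ha
  obtain ⟨⟨⟨x, y⟩, u⟩, hq, rfl⟩ := ha
  simp only [mem_product, mem_image] at hq
  obtain ⟨_, v, hv, rfl⟩ := hq
  unfold Vw VW at hv
  rw [mem_filter, mem_Ico] at hv
  obtain ⟨⟨hv1, hv2⟩, _⟩ := hv
  have hc := codes_lt hd w x (fun t => okey m k l t x) y
  have hU := Un_mul_RT hm hl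
  unfold el
  constructor
  · have h3 := Nat.mul_le_mul_left (Un m k l) hv1
    simp only
    omega
  · have h3 : Un m k l * v ≤ Un m k l * (16 * RT m k (bL m k l)) :=
      Nat.mul_le_mul_left (Un m k l) hv2.le
    have h4 : Un m k l * (16 * RT m k (bL m k l)) = 16 * NL m k l := by
      rw [← hU]
      ring
    simp only
    omega

/-! ## late states -/

/-- `b → ∞` -/
theorem exists_bL (hm : 0 < m) (k t0 : ℕ) : ∃ l0, ∀ l ≥ l0, bb 0 ≤ mL m k l ∧ t0 ≤ bL m k l := by
  obtain ⟨l0, h⟩ := exists_late (k := k) hm 0 (kt m (t0 + k + 1) + 1)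
  refine ⟨l0, fun l hl => ?_⟩
  obtain ⟨_, h2, _, h4, _⟩ := h l hl
  refine ⟨h2, ?_⟩
  have h5 : t0 + k < lv m k (era (mL m k l)) := (lt_lv_iff hm).2 (Or.inr h4)
  have h6 : lv m k (era (mL m k l)) ≤ dv m k (mL m k l) := Nat.le_add_right _ _
  unfold bL
  omega

theorem exists_SS_ge (hm : 0 < m) (C : ℕ) : ∀ t, C ≤ t → C ≤ SS m t := by
  intro t ht
  have h1 := aa_ge hm t
  have h2 : t < 2 ^ t := Nat.lt_two_pow_self
  have h3 : 2 ^ t ≤ SS m t := Nat.pow_le_pow_right (by norm_num) (by omega)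
  omega

/-- **the ranges double**, and all codes together are smaller than the scale -/
theorem exists_dbl (hm : 0 < m) (k : ℕ) : ∃ l0, ∀ l ≥ l0, Dbl m k l ∧
    2 * (FF m k l (rL m k l) *
        LL (Pool.Agent.Helper84.T5b.QQ m k (sL m k l)) (rL m k l)) ≤ NL m k l := by
  obtain ⟨l1', C, h1⟩ := exists_NL_le (k := k) hm
  obtain ⟨tq, hq⟩ := exists_pow_le_QF hm k
  obtain ⟨tr, hr⟩ := exists_pow_le_RT hm k
  obtain ⟨l2', h2⟩ := exists_bL hm k (tq + tr + C)
  refine ⟨l1' + l2', fun l hl => ?_⟩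
  obtain ⟨hbb, hb⟩ := h2 l (by omega)
  obtain ⟨g1, g2, g3, g4, g5, g6⟩ := rL_bounds hm k l
  set s := sL m k l with hs
  set b := bL m k l with hbdef
  -- the growth between two fronts
  have key : ∀ u x, b ≤ u → l ≤ x → x ≤ ez m u l →
      NL m k (ez m u l) ≤ NL m k x * (10 ^ 6) ^ (SS m u / 32) := by
    intro u x hu hx1 hx2
    apply h1 _ _ _ (by omega) hx2
    have e1 := Pool.Agent.Helper30.T5b.ez_sub_le hm u l
    have e2 := exists_SS_ge hm C u (by omega)
    have e3 := SS_ge hm u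
    omega
  constructor
  · intro t ht
    have hu : s - t = (s - (t + 1)) + 1 := by omega
    set v := s - (t + 1) with hv
    have e1 : FF m k l t * RT m k s = NL m k (ez m (v + 1) l) := by
      have := FF_mul_RT (k := k) hm hbb t
      unfold ef at this
      rw [← hs, hu] at this
      exact this
    have e2 : FF m k l (t + 1) * RT m k s = NL m k (ez m v l) := by
      have := FF_mul_RT (k := k) hm hbb (t + 1)
      unfold ef at this
      rw [← hs, ← hv] at this
      exact this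
    have e3 : NL m k (ez m (v + 1) l) ≤ NL m k (ez m v l) * (10 ^ 6) ^ (SS m (v + 1) / 32) :=
      key (v + 1) _ (by omega) (Pool.Agent.Helper30.T5b.lt_ez hm v l).le
        (Pool.Agent.Helper30.T5b.ez_le hm (Nat.le_succ v) l)
    have e4 : (10 ^ 6) ^ (SS m (v + 1) / 32 + 1) ≤ QT m k (v + 1) := by
      have f1 : (10 ^ 6) ^ (SS m (v + 1) / 32 + 1) ≤ QF m k (v + 1) 0 := by
        apply hq (v + 1) (by omega) 0
        have f2 := eight_mul_dz hm (v + 1) 0
        have f3 : gw 0 = 3 := rfl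
        rw [f3] at f2
        have f4 : Sg m (v + 1) = SS m (v + 1) - SS m v := rfl
        have f5 := SS_succ_ge hm v
        have f6 := SS_ge hm (v + 1)
        generalize SS m (v + 1) = A at *
        generalize SS m v = B at *
        omega
      refine f1.trans ?_
      have f7 : QT m k (v + 1) = QF m k (v + 1) 0 * (QF m k (v + 1) 1 * QF m k (v + 1) 2) := by
        unfold QT
        rw [Fin.prod_univ_three, mul_assoc]
      rw [f7]
      exact Nat.le_mul_of_pos_right _ (Nat.mul_pos (QF_pos _ _ _ _) (QF_pos _ _ _ _))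
    have e5 : 2 * FF m k l t ≤ FF m k l (t + 1) * QT m k (v + 1) := by
      refine Nat.le_of_mul_le_mul_right ?_ (RT_pos m k s)
      calc 2 * FF m k l t * RT m k s = 2 * NL m k (ez m (v + 1) l) := by rw [mul_assoc, e1]
        _ ≤ 2 * (NL m k (ez m v l) * (10 ^ 6) ^ (SS m (v + 1) / 32)) := Nat.mul_le_mul_left _ e3
        _ = NL m k (ez m v l) * (2 * (10 ^ 6) ^ (SS m (v + 1) / 32)) := by ring
        _ ≤ NL m k (ez m v l) * (10 ^ 6) ^ (SS m (v + 1) / 32 + 1) := by
            apply Nat.mul_le_mul_left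
            rw [pow_succ, mul_comm]
            exact Nat.mul_le_mul_left _ (by norm_num)
        _ ≤ NL m k (ez m v l) * QT m k (v + 1) := Nat.mul_le_mul_left _ e4
        _ = FF m k l (t + 1) * QT m k (v + 1) * RT m k s := by
            rw [← e2]
            ring
    rw [LL_succ]
    have e6 : Pool.Agent.Helper84.T5b.QQ m k s t = QT m k (v + 1) := by
      unfold Pool.Agent.Helper84.T5b.QQ
      rw [hu]
    rw [e6]
    calc 2 * (FF m k l t * LL (Pool.Agent.Helper84.T5b.QQ m k s) t)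
        = (2 * FF m k l t) * LL (Pool.Agent.Helper84.T5b.QQ m k s) t := by ring
      _ ≤ (FF m k l (t + 1) * QT m k (v + 1)) * LL (Pool.Agent.Helper84.T5b.QQ m k s) t :=
          Nat.mul_le_mul_right _ e5
      _ = _ := by ring
  · have hsb : s - rL m k l = b := by omega
    have e1 : FF m k l (rL m k l) * RT m k s = NL m k (ez m b l) := by
      have := FF_mul_RT (k := k) hm hbb (rL m k l)
      unfold ef at this
      rw [← hs, hsb] at this
      exact this
    have e2 := LL_mul_RT m k g6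
    rw [hsb] at e2
    have e3 := key b l le_rfl le_rfl (Pool.Agent.Helper30.T5b.lt_ez hm b l).le
    have e4 : (10 ^ 6) ^ (SS m b / 32 + 1) ≤ RT m k b := by
      apply hr b (by omega)
      have f6 := SS_ge hm b
      omega
    refine Nat.le_of_mul_le_mul_right ?_ (RT_pos m k b)
    calc 2 * (FF m k l (rL m k l) * LL (Pool.Agent.Helper84.T5b.QQ m k s) (rL m k l)) * RT m k b
        = 2 * (FF m k l (rL m k l) *
            (LL (Pool.Agent.Helper84.T5b.QQ m k s) (rL m k l) * RT m k b)) := by ring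
      _ = 2 * NL m k (ez m b l) := by rw [e2, e1]
      _ ≤ 2 * (NL m k l * (10 ^ 6) ^ (SS m b / 32)) := Nat.mul_le_mul_left _ e3
      _ = NL m k l * (2 * (10 ^ 6) ^ (SS m b / 32)) := by ring
      _ ≤ NL m k l * (10 ^ 6) ^ (SS m b / 32 + 1) := by
          apply Nat.mul_le_mul_left
          rw [pow_succ, mul_comm]
          exact Nat.mul_le_mul_left _ (by norm_num)
      _ ≤ NL m k l * RT m k b := Nat.mul_le_mul_left _ e4

/-- **range of the late states** -/
theorem exists_AA_range (hm : 0 < m) (k : ℕ) : ∃ l0 : ℕ, ∀ l, l0 ≤ l → ∀ (w : Key → ℕ) (a : ℕ),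
    a ∈ AA m k l w → NL m k l ≤ a ∧ a < 17 * NL m k l ∧ a < NL m k (l + 1) := by
  obtain ⟨l1', h1⟩ := exists_dbl hm k
  obtain ⟨l2', h2⟩ := exists_bL hm k 0
  refine ⟨l1' + l2', fun l hl w a ha => ?_⟩
  obtain ⟨hd, h3⟩ := h1 l (by omega)
  obtain ⟨a1, a2⟩ := AA_range_of hm (h2 l (by omega)).1 hd h3 w ha
  have h4 := NL_succ_ge m k l
  refine ⟨a1, a2, ?_⟩
  omega

end Pool.Agent.Helper27.T5b
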