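import Pool.Agent.Helper27.T5b.Own

/-!
# Insertion chains: intervals
-/

set_option autoImplicit false

namespace Pool.Agent.Helper27.T5b

open Finset

variable {α β : Type} [DecidableEq α] [DecidableEq β]
variable {ins : ℕ → ℕ} {mo : ℕ → α} {ex : ℕ → ℕ → β} {pa : α → ℕ} {pb : β → ℕ}

/-- main plus extra digits of an interval -/
theorem sub_eq (ins : ℕ → ℕ) {l' l : ℕ} (h : l' ≤ l) :
    l - l' = (l1 ins l - l1 ins l') + (l2 ins l - l2 ins l') := by
  have h1 := l1_add_l2 ins l
  have h2 := l1_add_l2 ins l'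
  have h3 := l1_mono ins h
  have h4 := l2_mono ins h
  omega

theorem sub_le (ins : ℕ → ℕ) {l' l : ℕ} (h : l' ≤ l) :
    l - l' ≤ (l1 ins l - l1 ins l') + ∑ z ∈ Icc (l1 ins l') (l1 ins l), ins z := by
  have h1 := sub_eq ins h
  have h2 := l2_sub_le ins h
  omega

theorem l1_sub_le' (ins : ℕ → ℕ) (l' l : ℕ) : l1 ins l - l1 ins l' ≤ l - l' := by
  rcases le_total l' l with h | h
  · have := l1_sub_le ins h
    omega
  · have := l1_mono ins h
    omega

/-- the digits of an interval, family by family -/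
theorem ct_sub (f : α ⊕ β) {l' l : ℕ} (h : l' ≤ l) :
    ct ins mo ex f l = ct ins mo ex f l' +
      ((Ico l' l).filter (fun i => ow ins mo ex i = f)).card := by
  unfold ct
  rw [← card_union_of_disjoint]
  · congr 1
    ext i
    simp only [mem_filter, mem_range, mem_union, mem_Ico]
    constructor
    · rintro ⟨h1, h2⟩
      rcases Nat.lt_or_ge i l' with h3 | h3
      · exact Or.inl ⟨h3, h2⟩
      · exact Or.inr ⟨⟨h3, h1⟩, h2⟩
    · rintro (⟨h1, h2⟩ | ⟨⟨_, h1⟩, h2⟩)
      · exact ⟨by omega, h2⟩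
      · exact ⟨h1, h2⟩
  · rw [disjoint_left]
    intro i h1 h2
    simp only [mem_filter, mem_range, mem_Ico] at h1 h2
    omega

/-- a family with digits in the interval -/
theorem ct_lt_iff (f : α ⊕ β) {l' l : ℕ} (h : l' ≤ l) :
    ct ins mo ex f l' < ct ins mo ex f l ↔ ∃ i, l' ≤ i ∧ i < l ∧ ow ins mo ex i = f := by
  rw [ct_sub f h]
  constructor
  · intro h1
    have h2 : 0 < ((Ico l' l).filter (fun i => ow ins mo ex i = f)).card := by omega
    obtain ⟨i, hi⟩ := card_pos.1 h2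
    rw [mem_filter, mem_Ico] at hi
    exact ⟨i, hi.1.1, hi.1.2, hi.2⟩
  · rintro ⟨i, h1, h2, h3⟩
    have : 0 < ((Ico l' l).filter (fun i => ow ins mo ex i = f)).card :=
      card_pos.2 ⟨i, by rw [mem_filter, mem_Ico]; exact ⟨⟨h1, h2⟩, h3⟩⟩
    omega

theorem ct_eq_iff (f : α ⊕ β) {l' l : ℕ} (h : l' ≤ l) :
    ct ins mo ex f l' = ct ins mo ex f l ↔ ∀ i, l' ≤ i → i < l → ow ins mo ex i ≠ f := by
  have h1 := ct_lt_iff (ins := ins) (mo := mo) (ex := ex) f h
  have h2 := ct_mono (ins := ins) (mo := mo) (ex := ex) f h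
  constructor
  · intro h3 i h4 h5 h6
    have := h1.2 ⟨i, h4, h5, h6⟩
    omega
  · intro h3
    by_contra hc
    obtain ⟨i, h4, h5, h6⟩ := h1.1 (lt_of_le_of_ne h2 hc)
    exact h3 i h4 h5 h6

/-- the product of the digits of an interval -/
theorem NP_mul {l' l : ℕ} (h : l' ≤ l) :
    NP ins mo ex pa pb l =
      NP ins mo ex pa pb l' * ∏ i ∈ Ico l' l, Sum.elim pa pb (ow ins mo ex i) := by
  unfold NP
  rw [← prod_range_mul_prod_Ico _ h]

theorem NP_div (ha : ∀ f, 0 < pa f) (hb : ∀ g, 0 < pb g) {l' l : ℕ} (h : l' ≤ l) :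
    NP ins mo ex pa pb l / NP ins mo ex pa pb l' =
      ∏ i ∈ Ico l' l, Sum.elim pa pb (ow ins mo ex i) := by
  rw [NP_mul h, Nat.mul_div_cancel_left _ (NP_pos ha hb l')]

/-- lower bound of the growth -/
theorem NP_lower {P : ℕ} (ha : ∀ f, P ≤ pa f) (hb : ∀ g, P ≤ pb g) {l' l : ℕ} (h : l' ≤ l) :
    NP ins mo ex pa pb l' * P ^ (l - l') ≤ NP ins mo ex pa pb l := by
  rw [NP_mul h]
  apply Nat.mul_le_mul_left
  rw [← Nat.card_Ico, ← prod_const]
  apply prod_le_prod'
  intro i _
  cases hi : ow ins mo ex i with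
  | inl f => exact ha f
  | inr g => exact hb g

/-- upper bound of the growth -/
theorem NP_upper {P : ℕ} (ha : ∀ f, pa f ≤ P) (hb : ∀ g, pb g ≤ P) {l' l : ℕ} (h : l' ≤ l) :
    NP ins mo ex pa pb l ≤ NP ins mo ex pa pb l' * P ^ (l - l') := by
  rw [NP_mul h]
  apply Nat.mul_le_mul_left
  rw [← Nat.card_Ico, ← prod_const]
  apply prod_le_prod'
  intro i _
  cases hi : ow ins mo ex i with
  | inl f => exact ha f
  | inr g => exact hb g

theorem NP_succ_ge {P : ℕ} (ha : ∀ f, P ≤ pa f) (hb : ∀ g, P ≤ pb g) (l : ℕ) :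
    P * NP ins mo ex pa pb l ≤ NP ins mo ex pa pb (l + 1) := by
  have := NP_lower (ins := ins) (mo := mo) (ex := ex) ha hb (Nat.le_succ l)
  simp only [Nat.succ_eq_add_one, Nat.add_sub_cancel_left, pow_one] at this
  rwa [mul_comm] at this

theorem NP_succ_le {P : ℕ} (ha : ∀ f, pa f ≤ P) (hb : ∀ g, pb g ≤ P) (l : ℕ) :
    NP ins mo ex pa pb (l + 1) ≤ P * NP ins mo ex pa pb l := by
  have := NP_upper (ins := ins) (mo := mo) (ex := ex) ha hb (Nat.le_succ l)
  simp only [Nat.succ_eq_add_one, Nat.add_sub_cancel_left, pow_one] at this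
  rwa [mul_comm] at this

/-- main part of the interval: if there is no extra digit in it -/
theorem no_extra {l' l : ℕ} (h : l' ≤ l)
    (h0 : ∀ z, l1 ins l' ≤ z → z ≤ l1 ins l → ins z = 0) :
    l - l' = l1 ins l - l1 ins l' ∧
      ∀ i, l' ≤ i → i < l → ow ins mo ex i = Sum.inl (mo (l1 ins l' + (i - l'))) := by
  have h1 := sub_le ins h
  rw [sum_eq_zero (fun z hz => by rw [mem_Icc] at hz; exact h0 z hz.1 hz.2)] at h1
  have h2 := l1_sub_le' ins l' l
  refine ⟨by omega, fun i hi hil => ?_⟩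
  have h3 : l1 ins i = l1 ins l' + (i - l') := by
    have a1 := sub_le ins hi
    have a2 := l1_sub_le' ins l' i
    have a3 := l1_mono ins hi
    have a4 := l1_mono ins hil.le
    rw [sum_eq_zero (fun z hz => by rw [mem_Icc] at hz; exact h0 z hz.1 (by omega))] at a1
    omega
  have h4 : i = pos ins (l1 ins i) := by
    rcases digit_cases ins i with h5 | ⟨r, hr, h5⟩
    · exact h5
    · have a3 := l1_mono ins hi
      have a4 := l1_mono ins hil.le
      have := h0 (l1 ins i) a3 a4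
      omega
  unfold ow
  rw [if_pos h4, h3]

/-- an interval that contains main digits `y` and `z`, `y < z`, contains the block before `z` -/
theorem block_in {l' l y z : ℕ} (hyz : y < z) (hy : l' ≤ pos ins y) (hz : pos ins z < l) :
    l' ≤ beg ins z ∧ pos ins z < l ∧ ins z ≤ l - l' := by
  have h1 : pos ins y < beg ins z := by
    have : pos ins y + 1 ≤ beg ins z := by
      rw [← beg_succ]
      exact (beg_strictMono ins).monotone hyz
    omega
  have h2 := pos_eq ins z
  omega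

end Pool.Agent.Helper27.T5b
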