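import Mathlib

/-!
# Insertion chains

`ins y` extra digits are put in front of the main digit `y`.  `pos ins y` is the index of the main
digit `y`, `l1 ins l` is the number of main digits with index `< l`.
-/

set_option autoImplicit false

namespace Pool.Agent.Helper27.T5b

open Finset

/-- number of extra digits in front of the main digit `y` -/
def GG (ins : ℕ → ℕ) (y : ℕ) : ℕ := ∑ z ∈ range (y + 1), ins z

/-- index of the main digit `y` -/
def pos (ins : ℕ → ℕ) (y : ℕ) : ℕ := y + GG ins y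

/-- first index of the block in front of the main digit `y` -/
def beg (ins : ℕ → ℕ) (y : ℕ) : ℕ := y + ∑ z ∈ range y, ins z

/-- number of main digits with index `< l` -/
def l1 (ins : ℕ → ℕ) (l : ℕ) : ℕ := ((range l).filter (fun y => pos ins y < l)).card

variable {ins : ℕ → ℕ}

theorem pos_eq (ins : ℕ → ℕ) (y : ℕ) : pos ins y = beg ins y + ins y := by
  unfold pos beg GG
  rw [sum_range_succ]
  ring

theorem beg_succ (ins : ℕ → ℕ) (y : ℕ) : beg ins (y + 1) = pos ins y + 1 := by
  unfold beg pos GG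
  ring

theorem beg_zero (ins : ℕ → ℕ) : beg ins 0 = 0 := by simp [beg]

theorem beg_le_pos (ins : ℕ → ℕ) (y : ℕ) : beg ins y ≤ pos ins y := by
  rw [pos_eq]
  omega

theorem pos_succ (ins : ℕ → ℕ) (y : ℕ) : pos ins (y + 1) = pos ins y + 1 + ins (y + 1) := by
  rw [pos_eq, beg_succ]

theorem pos_strictMono (ins : ℕ → ℕ) : StrictMono (pos ins) :=
  strictMono_nat_of_lt_succ fun y => by rw [pos_succ]; omega

theorem beg_strictMono (ins : ℕ → ℕ) : StrictMono (beg ins) :=
  strictMono_nat_of_lt_succ fun y => by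
    rw [beg_succ]
    have := beg_le_pos ins y
    omega

theorem le_pos (ins : ℕ → ℕ) (y : ℕ) : y ≤ pos ins y := (pos_strictMono ins).le_apply

theorem le_beg (ins : ℕ → ℕ) (y : ℕ) : y ≤ beg ins y := (beg_strictMono ins).le_apply

theorem filter_eq (ins : ℕ → ℕ) (l : ℕ) :
    ∃ c, (range l).filter (fun y => pos ins y < l) = range c := by
  -- an initial segment
  by_cases h : ∃ y, l ≤ pos ins y
  · refine ⟨Nat.find h, ?_⟩
    ext y
    simp only [mem_filter, mem_range]
    constructor
    · rintro ⟨_, h2⟩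
      by_contra hc
      have h3 := Nat.find_spec h
      have h4 := (pos_strictMono ins).monotone (not_lt.1 hc)
      omega
    · intro h2
      have h3 := Nat.find_min h h2
      have h4 := le_pos ins y
      omega
  · push Not at h
    have := h l
    have h4 := le_pos ins l
    omega

/-- the characterization of `l1` -/
theorem lt_l1_iff {l y : ℕ} : y < l1 ins l ↔ pos ins y < l := by
  obtain ⟨c, hc⟩ := filter_eq ins l
  unfold l1
  rw [hc, card_range, ← mem_range, ← hc, mem_filter, mem_range]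
  constructor
  · exact fun h => h.2
  · intro h
    exact ⟨(le_pos ins y).trans_lt h, h⟩

theorem l1_le_iff {l y : ℕ} : l1 ins l ≤ y ↔ l ≤ pos ins y := by
  rw [← not_lt, lt_l1_iff, not_lt]

theorem le_pos_l1 (ins : ℕ → ℕ) (l : ℕ) : l ≤ pos ins (l1 ins l) := l1_le_iff.1 le_rfl

theorem l1_pos (ins : ℕ → ℕ) (y : ℕ) : l1 ins (pos ins y) = y := by
  apply le_antisymm
  · exact l1_le_iff.2 le_rfl
  · by_contra hc
    have := l1_le_iff.1 (Nat.le_pred_of_lt (not_le.1 hc))
    have h2 : y - 1 < y := by omega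
    have := (pos_strictMono ins) h2
    simp only [Nat.pred_eq_sub_one] at *
    omega

theorem l1_zero (ins : ℕ → ℕ) : l1 ins 0 = 0 := by simp [l1]

theorem l1_mono (ins : ℕ → ℕ) : Monotone (l1 ins) := by
  intro a b hab
  rw [l1_le_iff]
  exact hab.trans (le_pos_l1 ins b)

theorem l1_le (ins : ℕ → ℕ) (l : ℕ) : l1 ins l ≤ l := l1_le_iff.2 (le_pos ins l)

/-- the digit with index `l` lies in the block of the main digit `l1 l` -/
theorem beg_l1_le (ins : ℕ → ℕ) (l : ℕ) : beg ins (l1 ins l) ≤ l := by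
  rcases Nat.eq_zero_or_pos (l1 ins l) with h | h
  · rw [h, beg_zero]
    omega
  · obtain ⟨y, hy⟩ := Nat.exists_eq_succ_of_ne_zero (Nat.pos_iff_ne_zero.1 h)
    rw [hy, Nat.succ_eq_add_one, beg_succ]
    have : y < l1 ins l := by omega
    exact lt_l1_iff.1 this

theorem l1_eq_iff {l y : ℕ} : l1 ins l = y ↔ beg ins y ≤ l ∧ l ≤ pos ins y := by
  constructor
  · rintro rfl
    exact ⟨beg_l1_le ins l, le_pos_l1 ins l⟩
  · rintro ⟨h1, h2⟩
    apply le_antisymm (l1_le_iff.2 h2)
    rcases Nat.eq_zero_or_pos y with h | h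
    · omega
    · obtain ⟨z, rfl⟩ := Nat.exists_eq_succ_of_ne_zero (Nat.pos_iff_ne_zero.1 h)
      rw [Nat.succ_eq_add_one, beg_succ] at h1
      have : z < l1 ins l := lt_l1_iff.2 (by omega)
      omega

theorem l1_beg (ins : ℕ → ℕ) (y : ℕ) : l1 ins (beg ins y) = y :=
  l1_eq_iff.2 ⟨le_rfl, beg_le_pos ins y⟩

/-- main or extra -/
theorem l1_succ (ins : ℕ → ℕ) (l : ℕ) :
    l1 ins (l + 1) = if l = pos ins (l1 ins l) then l1 ins l + 1 else l1 ins l := by
  have h1 := beg_l1_le ins l
  have h2 := le_pos_l1 ins l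
  split_ifs with h
  · rw [l1_eq_iff, beg_succ, pos_succ]
    omega
  · rw [l1_eq_iff]
    omega

theorem l1_succ_le (ins : ℕ → ℕ) (l : ℕ) : l1 ins (l + 1) ≤ l1 ins l + 1 := by
  rw [l1_succ]
  split_ifs <;> omega

theorem l1_sub_le (ins : ℕ → ℕ) {l' l : ℕ} (h : l' ≤ l) : l1 ins l ≤ l1 ins l' + (l - l') := by
  obtain ⟨d, rfl⟩ := Nat.exists_eq_add_of_le h
  clear h
  induction d with
  | zero => simp
  | succ d ih =>
    have := l1_succ_le ins (l' + d)
    rw [← add_assoc]
    omega

/-- number of extra digits with index `< l` -/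
def l2 (ins : ℕ → ℕ) (l : ℕ) : ℕ := l - l1 ins l

theorem l1_add_l2 (ins : ℕ → ℕ) (l : ℕ) : l1 ins l + l2 ins l = l := by
  unfold l2
  have := l1_le ins l
  omega

theorem l2_mono (ins : ℕ → ℕ) : Monotone (l2 ins) := by
  intro a b hab
  have h1 := l1_sub_le ins hab
  unfold l2
  omega

theorem l2_pos (ins : ℕ → ℕ) (y : ℕ) : l2 ins (pos ins y) = GG ins y := by
  unfold l2
  rw [l1_pos, pos]
  omega

theorem l2_beg (ins : ℕ → ℕ) (y : ℕ) : l2 ins (beg ins y) = ∑ z ∈ range y, ins z := by
  unfold l2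
  rw [l1_beg, beg]
  omega

/-- number of the extra digits with index in `[l', l)` -/
theorem l2_sub_le (ins : ℕ → ℕ) {l' l : ℕ} (h : l' ≤ l) :
    l2 ins l ≤ l2 ins l' + ∑ z ∈ Icc (l1 ins l') (l1 ins l), ins z := by
  -- `l2 l ≤ GG (l1 l)` and `l2 l' ≥ sum over z < l1 l'`
  have h1 : l2 ins l ≤ GG ins (l1 ins l) := by
    rw [← l2_pos]
    exact l2_mono ins (le_pos_l1 ins l)
  have h2 : ∑ z ∈ range (l1 ins l'), ins z ≤ l2 ins l' := by
    rw [← l2_beg]
    exact l2_mono ins (beg_l1_le ins l')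
  have h3 : GG ins (l1 ins l) = ∑ z ∈ range (l1 ins l'), ins z +
      ∑ z ∈ Icc (l1 ins l') (l1 ins l), ins z := by
    unfold GG
    rw [← sum_union]
    · congr 1
      ext z
      simp only [mem_range, mem_union, mem_Icc]
      have := l1_mono ins h
      omega
    · rw [disjoint_left]
      intro z h1 h2
      rw [mem_range] at h1
      rw [mem_Icc] at h2
      omega
  omega

end Pool.Agent.Helper27.T5b
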