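import Pool.Agent.Helper27.T5b.Ins

/-!
# Owners of the digits of an insertion chain
-/

set_option autoImplicit false

namespace Pool.Agent.Helper27.T5b

open Finset

variable {α β : Type} [DecidableEq α] [DecidableEq β]

/-- owner of the digit `l`: `mo y` is the owner of the main digit `y`, `ex y r` the owner of the
`r`-th extra digit in front of it -/
def ow (ins : ℕ → ℕ) (mo : ℕ → α) (ex : ℕ → ℕ → β) (l : ℕ) : α ⊕ β :=
  if l = pos ins (l1 ins l) then Sum.inl (mo (l1 ins l))
  else Sum.inr (ex (l1 ins l) (l - beg ins (l1 ins l)))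

variable {ins : ℕ → ℕ} {mo : ℕ → α} {ex : ℕ → ℕ → β}

theorem ow_pos (y : ℕ) : ow ins mo ex (pos ins y) = Sum.inl (mo y) := by
  unfold ow
  rw [l1_pos, if_pos rfl]

theorem ow_beg {y r : ℕ} (hr : r < ins y) : ow ins mo ex (beg ins y + r) = Sum.inr (ex y r) := by
  have h1 : l1 ins (beg ins y + r) = y := by
    rw [l1_eq_iff, pos_eq]
    omega
  unfold ow
  rw [h1, if_neg (by rw [pos_eq]; omega)]
  congr 2
  omega

/-- every digit is a main digit or an extra digit -/
theorem digit_cases (ins : ℕ → ℕ) (l : ℕ) :
    l = pos ins (l1 ins l) ∨ ∃ r < ins (l1 ins l), l = beg ins (l1 ins l) + r := by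
  have h1 := beg_l1_le ins l
  have h2 := le_pos_l1 ins l
  rcases Nat.eq_or_lt_of_le h2 with h3 | h3
  · exact Or.inl h3
  · right
    rw [pos_eq] at h3
    exact ⟨l - beg ins (l1 ins l), by omega, by omega⟩

/-- number of digits of the family `f` below `l` -/
def ct (ins : ℕ → ℕ) (mo : ℕ → α) (ex : ℕ → ℕ → β) (f : α ⊕ β) (l : ℕ) : ℕ :=
  ((range l).filter (fun i => ow ins mo ex i = f)).card

theorem ct_zero (f : α ⊕ β) : ct ins mo ex f 0 = 0 := by simp [ct]

theorem ct_succ (f : α ⊕ β) (l : ℕ) :
    ct ins mo ex f (l + 1) = ct ins mo ex f l + if ow ins mo ex l = f then 1 else 0 := by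
  unfold ct
  rw [range_add_one, filter_insert]
  split_ifs with h
  · rw [card_insert_of_notMem (by simp)]
  · rfl

theorem ct_mono (f : α ⊕ β) : Monotone (ct ins mo ex f) := by
  intro a b hab
  exact card_le_card (filter_subset_filter _ (range_subset_range.2 hab))

theorem ct_sub_le (f : α ⊕ β) {l' l : ℕ} (h : l' ≤ l) :
    ct ins mo ex f l ≤ ct ins mo ex f l' + (l - l') := by
  obtain ⟨d, rfl⟩ := Nat.exists_eq_add_of_le h
  clear h
  induction d with
  | zero => simp
  | succ d ih =>
    rw [← add_assoc, ct_succ]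
    split_ifs <;> omega

/-- the main families are counted in the main counter -/
theorem ct_main (f : α) (l : ℕ) :
    ct ins mo ex (Sum.inl f) l = ((range (l1 ins l)).filter (fun y => mo y = f)).card := by
  induction l with
  | zero => simp [ct_zero, l1_zero]
  | succ l ih =>
    rw [ct_succ, ih, l1_succ]
    by_cases h : l = pos ins (l1 ins l)
    · rw [if_pos h]
      have h2 : ow ins mo ex l = Sum.inl (mo (l1 ins l)) := by
        unfold ow
        rw [if_pos h]
      rw [h2, range_add_one, filter_insert]
      by_cases h3 : mo (l1 ins l) = f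
      · rw [if_pos h3, card_insert_of_notMem (by simp), if_pos (by rw [h3])]
      · rw [if_neg h3, if_neg (by simpa using h3)]
        rfl
    · rw [if_neg h]
      have h2 : ow ins mo ex l = Sum.inr (ex (l1 ins l) (l - beg ins (l1 ins l))) := by
        unfold ow
        rw [if_neg h]
      rw [h2]
      simp

/-- the extra families -/
theorem ct_extra (g : β) (l : ℕ) :
    ct ins mo ex (Sum.inr g) l =
      ∑ y ∈ range (l1 ins l), ((range (ins y)).filter (fun r => ex y r = g)).card +
        ((range (l - beg ins (l1 ins l))).filter (fun r => ex (l1 ins l) r = g)).card := by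
  induction l with
  | zero => simp [ct_zero, l1_zero]
  | succ l ih =>
    rw [ct_succ, ih, l1_succ]
    by_cases h : l = pos ins (l1 ins l)
    · rw [if_pos h]
      have h2 : ow ins mo ex l = Sum.inl (mo (l1 ins l)) := by
        unfold ow
        rw [if_pos h]
      rw [h2, if_neg (by simp), sum_range_succ, beg_succ, ← h]
      have h3 : l - beg ins (l1 ins l) = ins (l1 ins l) := by
        have := pos_eq ins (l1 ins l)
        omega
      rw [h3]
      simp
    · rw [if_neg h]
      have h2 : ow ins mo ex l = Sum.inr (ex (l1 ins l) (l - beg ins (l1 ins l))) := by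
        unfold ow
        rw [if_neg h]
      rw [h2]
      have h4 := beg_l1_le ins l
      have h3 : l + 1 - beg ins (l1 ins l) = (l - beg ins (l1 ins l)) + 1 := by omega
      rw [h3, range_add_one, filter_insert]
      by_cases h5 : ex (l1 ins l) (l - beg ins (l1 ins l)) = g
      · rw [if_pos h5, card_insert_of_notMem (by simp), if_pos (by rw [h5])]
        omega
      · rw [if_neg h5, if_neg (by simpa using h5)]
        rfl

/-- the modulus: product of the digits below `l` -/
def NP (ins : ℕ → ℕ) (mo : ℕ → α) (ex : ℕ → ℕ → β) (pa : α → ℕ) (pb : β → ℕ) (l : ℕ) : ℕ :=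
  ∏ i ∈ range l, Sum.elim pa pb (ow ins mo ex i)

/-- the part of the extra digits -/
def NE (ins : ℕ → ℕ) (ex : ℕ → ℕ → β) (pb : β → ℕ) (l : ℕ) : ℕ :=
  (∏ y ∈ range (l1 ins l), ∏ r ∈ range (ins y), pb (ex y r)) *
    ∏ r ∈ range (l - beg ins (l1 ins l)), pb (ex (l1 ins l) r)

variable {pa : α → ℕ} {pb : β → ℕ}

theorem NP_zero : NP ins mo ex pa pb 0 = 1 := by simp [NP]

theorem NP_succ (l : ℕ) :
    NP ins mo ex pa pb (l + 1) = NP ins mo ex pa pb l * Sum.elim pa pb (ow ins mo ex l) := by
  unfold NP
  rw [prod_range_succ]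

theorem NP_dvd {l' l : ℕ} (h : l' ≤ l) : NP ins mo ex pa pb l' ∣ NP ins mo ex pa pb l :=
  prod_dvd_prod_of_subset _ _ _ (range_subset_range.2 h)

theorem NP_pos (ha : ∀ f, 0 < pa f) (hb : ∀ g, 0 < pb g) (l : ℕ) :
    0 < NP ins mo ex pa pb l := by
  unfold NP
  apply prod_pos
  intro i _
  cases h : ow ins mo ex i with
  | inl f => exact ha f
  | inr g => exact hb g

/-- **main part times extra part** -/
theorem NP_eq (l : ℕ) :
    NP ins mo ex pa pb l = (∏ y ∈ range (l1 ins l), pa (mo y)) * NE ins ex pb l := by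
  induction l with
  | zero => simp [NP_zero, l1_zero, NE]
  | succ l ih =>
    rw [NP_succ, ih]
    unfold NE
    rw [l1_succ]
    by_cases h : l = pos ins (l1 ins l)
    · rw [if_pos h]
      have h2 : ow ins mo ex l = Sum.inl (mo (l1 ins l)) := by
        unfold ow
        rw [if_pos h]
      rw [h2, prod_range_succ, prod_range_succ, beg_succ, ← h]
      have h3 : l - beg ins (l1 ins l) = ins (l1 ins l) := by
        have := pos_eq ins (l1 ins l)
        omega
      rw [h3]
      simp only [Sum.elim_inl, Nat.sub_self, range_zero, prod_empty]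
      ring
    · rw [if_neg h]
      have h2 : ow ins mo ex l = Sum.inr (ex (l1 ins l) (l - beg ins (l1 ins l))) := by
        unfold ow
        rw [if_neg h]
      rw [h2]
      have h4 := beg_l1_le ins l
      have h3 : l + 1 - beg ins (l1 ins l) = (l - beg ins (l1 ins l)) + 1 := by omega
      rw [h3, prod_range_succ]
      simp only [Sum.elim_inr]
      ring

/-- product over the families (finite families) -/
theorem NP_fam [Fintype α] [Fintype β] (l : ℕ) :
    NP ins mo ex pa pb l = ∏ f : α ⊕ β, Sum.elim pa pb f ^ ct ins mo ex f l := by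
  unfold NP ct
  rw [← prod_fiberwise_of_maps_to (s := range l) (t := univ) (g := ow ins mo ex)
    (fun i _ => mem_univ _)]
  apply prod_congr rfl
  intro f _
  rw [prod_congr rfl (g := fun _ => Sum.elim pa pb f), prod_const]
  intro i hi
  rw [mem_filter] at hi
  rw [hi.2]

end Pool.Agent.Helper27.T5b
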